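import Pool.Agent.Helper83.RB.St2

set_option autoImplicit false

namespace Pool.Agent.Helper57.RB

open Pool.Agent.Helper83.RB

/-- The value of a concatenation. -/
private theorem ev_append {r : ℕ} {B : Type} [Monoid B] (y : Fin r → B) (u v : List (Fin r)) :
    ev y (u ++ v) = ev y u * ev y v := by
  simp [ev, List.map_append, List.prod_append]

/-- A non-empty set of fewer than `d` letters is contained in the range of a map from
`Fin (d - 1)`. -/
private theorem exists_range {m d : ℕ} (s : Finset (Fin m)) (hs : s.card < d) (x₀ : Fin m) :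
    ∃ e : Fin (d - 1) → Fin m, ∀ x ∈ s, ∃ j, e j = x := by
  classical
  have hcard : s.card ≤ d - 1 := by omega
  let eq := s.equivFin
  refine ⟨fun j => if h : (j : ℕ) < s.card then (eq.symm ⟨j, h⟩ : Fin m) else x₀, ?_⟩
  intro x hx
  refine ⟨⟨(eq ⟨x, hx⟩ : ℕ), lt_of_lt_of_le (eq ⟨x, hx⟩).2 hcard⟩, ?_⟩
  have h1 : ((eq ⟨x, hx⟩ : Fin s.card) : ℕ) < s.card := (eq ⟨x, hx⟩).2
  simp only [h1, dif_pos]
  simp

/-- the augmentation filtration -/
private def JJ {m : ℕ} {B : Type} [Ring B] (y : Fin m → B) (k : ℕ) : AddSubgroup B :=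
  AddSubgroup.closure {z : B | ∃ w : List (Fin m), k ≤ w.length ∧ z = ev y w}

private theorem JJ_anti {m : ℕ} {B : Type} [Ring B] (y : Fin m → B) {k l : ℕ} (h : k ≤ l) :
    JJ y l ≤ JJ y k := by
  apply AddSubgroup.closure_mono
  rintro z ⟨w, hw, rfl⟩
  exact ⟨w, le_trans h hw, rfl⟩

private theorem JJ_mul {m : ℕ} {B : Type} [Ring B] (y : Fin m → B) {k l : ℕ} {a b : B}
    (ha : a ∈ JJ y k) (hb : b ∈ JJ y l) : a * b ∈ JJ y (k + l) := by
  unfold JJ at ha
  induction ha using AddSubgroup.closure_induction with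
  | mem x hx =>
    obtain ⟨v, hv, rfl⟩ := hx
    unfold JJ at hb
    induction hb using AddSubgroup.closure_induction with
    | mem z hz =>
      obtain ⟨w, hw, rfl⟩ := hz
      rw [← ev_append]
      refine AddSubgroup.subset_closure ⟨v ++ w, ?_, rfl⟩
      rw [List.length_append]
      omega
    | zero => rw [mul_zero]; exact AddSubgroup.zero_mem _
    | add z z' _ _ h1 h2 => rw [mul_add]; exact AddSubgroup.add_mem _ h1 h2
    | neg z _ h1 => rw [mul_neg]; exact AddSubgroup.neg_mem _ h1
  | zero => rw [zero_mul]; exact AddSubgroup.zero_mem _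
  | add z z' _ _ h1 h2 => rw [add_mul]; exact AddSubgroup.add_mem _ h1 h2
  | neg z _ h1 => rw [neg_mul]; exact AddSubgroup.neg_mem _ h1

private theorem JJ_one {m : ℕ} {B : Type} [Ring B] (y : Fin m → B) : (1 : B) ∈ JJ y 0 :=
  AddSubgroup.subset_closure ⟨[], Nat.zero_le _, by simp [ev]⟩

/-- All the `φ g - 1` are in the first step of the filtration. -/
private theorem JJ_all {p m : ℕ} {N : Type} [Group N] (hp : 1 ≤ p) (hexp : ∀ g : N, g ^ p = 1)
    (f : Fin m → N) (hf : Subgroup.closure (Set.range f) = ⊤) {B : Type} [Ring B]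
    (φ : N →* Bˣ) (g : N) :
    ((φ g : Bˣ) : B) - 1 ∈ JJ (fun i => ((φ (f i) : Bˣ) : B) - 1) 1 := by
  set y : Fin m → B := fun i => ((φ (f i) : Bˣ) : B) - 1 with hy
  have hmul1 : ∀ g h : N, ((φ g : Bˣ) : B) - 1 ∈ JJ y 1 → ((φ h : Bˣ) : B) - 1 ∈ JJ y 1 →
      ((φ (g * h) : Bˣ) : B) - 1 ∈ JJ y 1 := by
    intro g h hg hh
    have e : ((φ (g * h) : Bˣ) : B) - 1 = (((φ g : Bˣ) : B) - 1) * (((φ h : Bˣ) : B) - 1) +
        ((((φ g : Bˣ) : B) - 1) + (((φ h : Bˣ) : B) - 1)) := by
      rw [map_mul, Units.val_mul]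
      noncomm_ring
    rw [e]
    refine AddSubgroup.add_mem _ (JJ_anti y (by omega) (JJ_mul y hg hh)) ?_
    exact AddSubgroup.add_mem _ hg hh
  have hone1 : ((φ (1 : N) : Bˣ) : B) - 1 ∈ JJ y 1 := by
    rw [map_one, Units.val_one, sub_self]
    exact AddSubgroup.zero_mem _
  have hpow : ∀ (g : N), ((φ g : Bˣ) : B) - 1 ∈ JJ y 1 → ∀ n : ℕ,
      ((φ (g ^ n) : Bˣ) : B) - 1 ∈ JJ y 1 := by
    intro g hg n
    induction n with
    | zero => rw [pow_zero]; exact hone1
    | succ n ih => rw [pow_succ]; exact hmul1 _ _ ih hg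
  have hg : g ∈ Subgroup.closure (Set.range f) := by rw [hf]; exact Subgroup.mem_top g
  induction hg using Subgroup.closure_induction with
  | mem x hx =>
    obtain ⟨i, rfl⟩ := hx
    refine AddSubgroup.subset_closure ⟨[i], by simp, ?_⟩
    simp [ev, hy]
  | one => exact hone1
  | mul a b _ _ ha hb => exact hmul1 a b ha hb
  | inv a _ ha =>
    have e : a⁻¹ = a ^ (p - 1) := by
      rw [inv_eq_iff_mul_eq_one]
      rw [← pow_succ', Nat.sub_add_cancel hp]
      exact hexp a
    rw [e]
    exact hpow a ha _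

/-- A product of `n` elements of the first step is in the `n`-th step. -/
private theorem JJ_prod {m : ℕ} {B : Type} [Ring B] (y : Fin m → B) (l : List B)
    (hl : ∀ z ∈ l, z ∈ JJ y 1) : l.prod ∈ JJ y l.length := by
  induction l with
  | nil => simpa using JJ_one y
  | cons z l ih =>
    rw [List.prod_cons, List.length_cons, add_comm]
    exact JJ_mul y (hl z (by simp)) (ih fun x hx => hl x (by simp [hx]))

/-- NIL. -/
theorem hNIL (hDEC : StDEC) (hRWR : StRWR) (hSPN : StSPN) (hUNI : StUNI) : StNIL := by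
  classical
  intro p d _
  rcases Nat.eq_zero_or_pos d with hd | hd
  · subst hd
    refine ⟨0, ?_⟩
    intro m N _ hN hf B _ _ hPI φ l _
    obtain ⟨a, ha, hx⟩ := hPI
    have h1 : a 1 ≠ 0 := by
      intro h
      apply ha
      funext σ
      have : σ = 1 := Subsingleton.elim _ _
      rw [this, h]; rfl
    have h2 := hx (fun i => i.elim0)
    have h3 : a 1 • (1 : B) = 0 := by
      have : (Finset.univ : Finset (Equiv.Perm (Fin 0))) = {1} := by
        ext σ
        simp [Subsingleton.elim σ 1]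
      rw [this, Finset.sum_singleton] at h2
      simpa using h2
    have h4 : (1 : B) = 0 := by
      have := congrArg (fun z => (a 1)⁻¹ • z) h3
      simpa [smul_smul, inv_mul_cancel₀ h1] using this
    rw [← mul_one (List.map (fun g : N => ((φ g : Bˣ) : B) - 1) l).prod, h4, mul_zero]
  · obtain ⟨δ, hδ⟩ := hSPN p (d - 1) d hd
    refine ⟨d * (δ + 1), ?_⟩
    intro m N _ hN hf B _ _ hPI φ l hl
    obtain ⟨f, hfgen⟩ := hf
    have hp1 : 1 ≤ p := (Fact.out : p.Prime).one_lt.le
    -- step 1
    have h1 : ∀ b : List (Fin m), b.length = δ + 1 → b.toFinset.card < d →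
        ev (fun i => ((φ (f i) : Bˣ) : B) - 1) b = 0 := by
      intro b hb hcard
      have hne : b ≠ [] := by
        intro h
        rw [h] at hb
        simp at hb
      obtain ⟨x₀, hx₀⟩ := List.exists_mem_of_ne_nil b hne
      obtain ⟨e, he⟩ := exists_range b.toFinset hcard x₀
      let h : Fin (d - 1) → Bˣ := fun j => φ (f (e j))
      have hsub : Subgroup.closure (Set.range h) ≤ φ.range := by
        rw [Subgroup.closure_le]
        rintro _ ⟨j, rfl⟩
        exact ⟨f (e j), rfl⟩
      have hpow : ∀ g ∈ Subgroup.closure (Set.range h), g ^ p = 1 := by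
        intro g hg
        obtain ⟨n, rfl⟩ := hsub hg
        rw [← map_pow, hN, map_one]
      obtain ⟨S, hS, hspan⟩ := hδ B hPI h hpow
      have key := hUNI p δ B (Subgroup.closure (Set.range h)) hpow S hS hspan
        (b.map fun i => φ (f i)) (by
          intro g hg
          rw [List.mem_map] at hg
          obtain ⟨x, hx, rfl⟩ := hg
          obtain ⟨j, hj⟩ := he x (List.mem_toFinset.mpr hx)
          apply Subgroup.subset_closure
          exact ⟨j, by simp [h, hj]⟩) (by
          rw [List.length_map]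
          omega)
      have hco : ∀ l : List Bˣ, (do let a ← l; pure (a : B)) =
          List.map (Units.val : Bˣ → B) l := by
        intro l
        simp only [List.bind_eq_flatMap, List.pure_def]
        exact List.map_eq_flatMap.symm
      rw [hco, List.map_map, List.map_map] at key
      exact key
    -- step 2
    have h2 : ∀ w : List (Fin m), ((d - 1) * m + 1) * (δ + 1) ≤ w.length →
        ev (fun i => ((φ (f i) : Bˣ) : B) - 1) w = 0 := by
      intro w hw
      have := hRWR p d m w.length B hPI (fun i => ((φ (f i) : Bˣ) : B) - 1) ⊥ (by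
        intro w' hw'
        rcases hDEC m d (δ + 1) hd w' (by omega) with h | ⟨l, b, t, hlbt, hb, hcard⟩
        · exact Or.inr h
        · left
          rw [Submodule.mem_bot, hlbt, ev_append, ev_append, h1 b hb hcard]
          simp) w rfl
      rwa [Submodule.mem_bot] at this
    -- step 3
    have hT : ((d - 1) * m + 1) * (δ + 1) ≤ l.length := by
      refine le_trans ?_ hl
      have : (d - 1) * m + 1 ≤ d * (m + 1) := by
        obtain ⟨d', rfl⟩ : ∃ d', d = d' + 1 := ⟨d - 1, by omega⟩
        simp only [Nat.add_sub_cancel]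
        nlinarith
      calc ((d - 1) * m + 1) * (δ + 1) ≤ (d * (m + 1)) * (δ + 1) := Nat.mul_le_mul_right _ this
        _ = d * (δ + 1) * (m + 1) := by ring
    have hJT : JJ (fun i => ((φ (f i) : Bˣ) : B) - 1) (((d - 1) * m + 1) * (δ + 1)) ≤ ⊥ := by
      unfold JJ
      rw [AddSubgroup.closure_le]
      rintro z ⟨w, hw, rfl⟩
      rw [h2 w hw]
      exact AddSubgroup.zero_mem _
    have hprod := JJ_prod (fun i => ((φ (f i) : Bˣ) : B) - 1)
      (List.map (fun g : N => ((φ g : Bˣ) : B) - 1) l) (by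
        intro z hz
        rw [List.mem_map] at hz
        obtain ⟨g, _, rfl⟩ := hz
        exact JJ_all hp1 hN f hfgen φ g)
    rw [List.length_map] at hprod
    exact (AddSubgroup.mem_bot).1 (hJT (JJ_anti _ hT hprod))

end Pool.Agent.Helper57.RB
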